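import Pool.Agent.Lib.MP_67d80e_pr_add.Blocks
import Pool.Agent.Lib.MP_67d80e_pr_g3.Ct4.Z
import Pool.Agent.Lib.MP_67d80e_pr_g3.Ct5.Z
import Pool.Agent.Lib.MP_67d80e_pr_g3.Ct6.Z
import Pool.Agent.Lib.MP_67d80e_pr_g3.Ct7.Z
import Pool.Agent.Lib.MP_67d80e_pr_g3.Ct8.Z

/-!
The two conclusions in all dimensions `d ≥ 5`.
-/

set_option autoImplicit false

namespace Pool.Agent.Lib.MP_67d80e_pr_fin

open Pool.Agent.Lib.MP_67d80e_pr_all Pool.Agent.Lib.MP_67d80e_pr_g3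
  Pool.Agent.Lib.MP_67d80e_pr_add Pool.Agent.Lib.MP_67d80e_pr_ub

theorem dim_five : TiltedAll 5 ∧ SymNotDecor 5 :=
  crit_dir Ct4.hasLB Ct5.hasLB (ub_5 (n := 4) le_rfl) (by norm_num)

theorem dim_six : TiltedAll 6 ∧ SymNotDecor 6 :=
  crit_dir Ct5.hasLB Ct6.hasLB (ub_6 (n := 5) le_rfl) (by norm_num)

theorem dim_seven : TiltedAll 7 ∧ SymNotDecor 7 :=
  crit_dir Ct6.hasLB Ct7.hasLB (ub_7 (n := 6) le_rfl) (by norm_num)

theorem dim_eight : TiltedAll 8 ∧ SymNotDecor 8 :=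
  crit_dir Ct7.hasLB Ct8.hasLB (ub_8 (n := 7) le_rfl) (by norm_num)

theorem dim_nine : TiltedAll 9 ∧ SymNotDecor 9 :=
  crit_dir Ct8.hasLB (lb18 (d := 9) le_rfl) (ub_9 (n := 8) le_rfl) (by norm_num)

/-- all dimensions `d ≥ 5` -/
theorem all_ge_five {d : ℕ} (hd : 5 ≤ d) : TiltedAll d ∧ SymNotDecor d := by
  rcases Nat.lt_or_ge d 10 with h | h
  · interval_cases d
    · exact dim_five
    · exact dim_six
    · exact dim_seven
    · exact dim_eight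
    · exact dim_nine
  · exact all_ge_ten h

end Pool.Agent.Lib.MP_67d80e_pr_fin
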