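import Pool.Agent.Lib.MP_67d80e_pr_fin.Small
import Pool.Agent.Lib.MP_67d80e_pr_fin.Mid

/-!
The two conclusions in all dimensions.
-/

set_option autoImplicit false

namespace Pool.Agent.Lib.MP_67d80e_pr_fin

open Pool.Agent.Lib.MP_67d80e_pr_all

/-- all dimensions `d ≥ 1` -/
theorem all_dims {d : ℕ} (hd : 1 ≤ d) : TiltedAll d ∧ SymNotDecor d := by
  rcases Nat.lt_or_ge d 5 with h | h
  · interval_cases d
    · exact dim_one
    · exact dim_two
    · exact dim_three
    · exact dim_four
  · exact all_ge_five h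

end Pool.Agent.Lib.MP_67d80e_pr_fin
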