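import Pool.Agent.Lib.MP_67d80e_pr_all.CritI
import Pool.Agent.Lib.MP_67d80e_pr_g3.Ct2.Z
import Pool.Agent.Lib.MP_67d80e_pr_g3.Ct3.Z
import Pool.Agent.Lib.MP_67d80e_pr_g3.Ct4.Z
import Pool.Agent.Lib.MP_67d80e_pr_shp.SbFin
import Pool.Agent.Lib.MP_67d80e_pr_d1.Final1
import Pool.Agent.Lib.MP_67d80e_pr_u2.All
import Pool.Agent.Lib.MP_67d80e_pr_u3.All
import Pool.Agent.Lib.MP_67d80e_pr_u4.All

/-!
The two conclusions in the dimensions one to four.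
-/

set_option autoImplicit false

namespace Pool.Agent.Lib.MP_67d80e_pr_fin

open Pool.Agent.Lib.MP_67d80e_pr_all Pool.Agent.Lib.MP_67d80e_pr_g3

theorem dim_one : TiltedAll 1 ∧ SymNotDecor 1 := by
  refine ⟨fun i => ?_, Pool.Agent.Lib.MP_67d80e_pr_d1.sym_not_decorrelated1⟩
  obtain ⟨μ, h1, h2, h3, h4⟩ := Pool.Agent.Lib.MP_67d80e_pr_d1.tilted_stationary1
  have hi : i = 0 := Subsingleton.elim _ _
  subst hi
  exact ⟨μ, h1, h2, h3, h4, fun j hj => absurd (Subsingleton.elim j 0) hj⟩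

theorem dim_two : TiltedAll 2 ∧ SymNotDecor 2 :=
  crit_dir Pool.Agent.Lib.MP_67d80e_pr_shp.sb_hasLB Ct2.hasLB
    Pool.Agent.Lib.MP_67d80e_pr_u2.hasUB (by norm_num)

theorem dim_three : TiltedAll 3 ∧ SymNotDecor 3 :=
  crit_dir Ct2.hasLB Ct3.hasLB Pool.Agent.Lib.MP_67d80e_pr_u3.hasUB (by norm_num)

theorem dim_four : TiltedAll 4 ∧ SymNotDecor 4 :=
  crit_dir Ct3.hasLB Ct4.hasLB Pool.Agent.Lib.MP_67d80e_pr_u4.hasUB (by norm_num)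

end Pool.Agent.Lib.MP_67d80e_pr_fin
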